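import Pool.Agent.CPC.Main

/-!
# MP_cda892_gt: constant principal curvatures and constant angles imply isoparametric

`F i` are models of space forms of curvature `k i` (hyperquadrics `k B(x, x) = 1` in vector spaces
`W i`, `B` positive definite on the tangent spaces), `X : E → ∏ W i` restricted to the open set `U`
is a parametrised hypersurface of their Riemannian product, with unit normal field `ξ`.  If the
principal curvatures are constant and the lengths of the components of the unit normal in the
factors are constant, then the hypersurface is isoparametric.
-/

namespace Pool.Agent.Results.MP_cda892_gt.ConstantAngles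

open Pool.Agent.CPC

theorem result {ι : Type*} [Fintype ι] {W : ι → Type*} [∀ i, NormedAddCommGroup (W i)]
    [∀ i, NormedSpace ℝ (W i)] [∀ i, FiniteDimensional ℝ (W i)] {E : Type*}
    [NormedAddCommGroup E] [NormedSpace ℝ E] [FiniteDimensional ℝ E]
    (F : ∀ i, SF (W i)) (U : Set E) (X ξ : E → ∀ i, W i) (h : IsHyp F U X ξ)
    (hcpc : ConstPC F U X ξ) (hang : ConstAngle F U ξ) : Isoparametric F U X ξ :=
  main h hcpc hang

end Pool.Agent.Results.MP_cda892_gt.ConstantAngles
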