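import Pool.Agent.SymS.Main

/-!
# MP_cda892_gt: constant mean curvature and normal of constant generic type imply isoparametric

`M : Sym A` is the infinitesimal data of a Riemannian symmetric space inside an algebra `A`, and
`u ↦ f u · o` (`u ∈ U`) is a parametrised hypersurface whose unit normal at `f u · o` is the image
under `f u` of a fixed unit vector `ξ ∈ pp` (the normal has constant type).  If `ξ` is generic and the
mean curvature is constant (for example if the principal curvatures are constant), then all the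
parallel hypersurfaces `u ↦ f u · exp (t ξ) · o`, `t ∈ ℝ`, are immersed and have the same constant mean
curvature.
-/

namespace Pool.Agent.Results.MP_cda892_gt.GenericType

open Pool.Agent.SymS

theorem result {A : Type*} [NormedRing A] [NormedAlgebra ℝ A] [FiniteDimensional ℝ A]
    {E : Type*} [NormedAddCommGroup E] [NormedSpace ℝ E] [FiniteDimensional ℝ E]
    (M : Sym A) (ξ : A) (hξ : ξ ∈ M.pp) (hNF : M.NoFlat ξ)
    (hG : M.Generic ξ) (U : Set E) (f : E → A) (wk wp : E → E →ₗ[ℝ] A)
    (h : M.IsHyp ξ U f wk wp) (h0 : ℝ)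
    (hcmc : ∀ u ∈ U, ∃ S : E →ₗ[ℝ] E, IsShape ξ (wk u) (wp u) S ∧ LinearMap.trace ℝ E S = h0)
    (t : ℝ) :
    ∃ wk' wp' : E → E →ₗ[ℝ] A,
      M.IsHyp ξ U (fun u => f u * NormedSpace.exp (t • ξ)) wk' wp' ∧
      ∀ u ∈ U, ∃ S : E →ₗ[ℝ] E, IsShape ξ (wk' u) (wp' u) S ∧ LinearMap.trace ℝ E S = h0 :=
  main M hξ hNF hG h h0 hcmc t

end Pool.Agent.Results.MP_cda892_gt.GenericType
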