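import Pool.Agent.QnS.Main4

/-!
# MP_cda892_gt: hypersurfaces of `Q × ℝ` with constant principal curvatures, low dimensions and more

`F` is a pair of space forms: `F i0` of curvature `k ≠ 0` and any dimension, `F i1` a Euclidean line;
`X : E → ∏ W i` restricted to the connected open set `U` is a parametrised hypersurface of
their Riemannian product.  `P` is the characteristic polynomial of its shape operator (the same at
all points), so the principal curvatures are the roots of `P`.  The hypersurface is isoparametric if its
dimension is at most six; or seven, unless exactly five principal curvatures are simple; or if the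
principal curvatures are not degenerate (`NonDegR`); or if, locally, the angle of the hypersurface with
the line determines the position of the line relative to the principal directions (`LocAngleDet`).
-/

namespace Pool.Agent.Results.MP_cda892_gt.LowDimensions

open Pool.Agent.CPC Pool.Agent.QnS

open Classical in
theorem result {ι : Type*} [Fintype ι] {W : ι → Type*} [∀ i, NormedAddCommGroup (W i)]
    [∀ i, NormedSpace ℝ (W i)] [∀ i, FiniteDimensional ℝ (W i)] {E : Type*}
    [NormedAddCommGroup E] [NormedSpace ℝ E] [FiniteDimensional ℝ E]
    (F : ∀ i, SF (W i)) (i0 i1 : ι) (hne : i0 ≠ i1) (hι : ∀ i, i = i0 ∨ i = i1)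
    (hk0 : (F i0).k ≠ 0) (hk1 : (F i1).k = 0) (hd : Module.finrank ℝ (W i1) = 1)
    (U : Set E) (hU : IsPreconnected U) (X ξ : E → ∀ i, W i) (h : IsHyp F U X ξ)
    (P : Polynomial ℝ)
    (hP : ∀ u ∈ U, ∃ S : E →ₗ[ℝ] E, IsShape F X ξ u S ∧ S.charpoly = P)
    (hn : 2 ≤ P.natDegree)
    (hcond : P.natDegree ≤ 6 ∨ (P.natDegree = 7 ∧
        (P.roots.toFinset.filter (fun a => P.rootMultiplicity a = 1)).card ≠ 5) ∨
      NonDegR P.roots ∨ LocAngleDet F i1 U X ξ) :
    Isoparametric F U X ξ :=
  Pool.Agent.QnS.main4 hU h hne hι hk0 hk1 hd P hP hn hcond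

end Pool.Agent.Results.MP_cda892_gt.LowDimensions
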