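import Pool.Agent.QnR.Main

/-!
# MP_cda892_gt: hypersurfaces of `Q × ℝ` with constant principal curvatures, few of them simple

`F` is a pair of space forms: `F i0` of curvature `k ≠ 0` and any dimension, `F i1` a Euclidean line;
`X : E → ∏ W i` restricted to the connected open set `U` is a parametrised hypersurface of
their Riemannian product.  `P` is the characteristic polynomial of its shape operator (the same at
all points), so the principal curvatures are the roots of `P`.  If at least one principal curvature is
multiple and at most three are simple, or if at most half of the different principal curvatures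
are simple, then the hypersurface is isoparametric.
-/

namespace Pool.Agent.Results.MP_cda892_gt.ProductWithLine

open Pool.Agent.CPC

open Classical in
theorem result {ι : Type*} [Fintype ι] {W : ι → Type*} [∀ i, NormedAddCommGroup (W i)]
    [∀ i, NormedSpace ℝ (W i)] [∀ i, FiniteDimensional ℝ (W i)] {E : Type*}
    [NormedAddCommGroup E] [NormedSpace ℝ E] [FiniteDimensional ℝ E]
    (F : ∀ i, SF (W i)) (i0 i1 : ι) (hne : i0 ≠ i1) (hι : ∀ i, i = i0 ∨ i = i1)
    (hk0 : (F i0).k ≠ 0) (hk1 : (F i1).k = 0) (hd : Module.finrank ℝ (W i1) = 1)
    (U : Set E) (hU : IsPreconnected U) (X ξ : E → ∀ i, W i) (h : IsHyp F U X ξ)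
    (P : Polynomial ℝ)
    (hP : ∀ u ∈ U, ∃ S : E →ₗ[ℝ] E, IsShape F X ξ u S ∧ S.charpoly = P)
    (hcond : ((P.roots.toFinset.filter (fun a => P.rootMultiplicity a = 1)).card ≤ 3 ∧
        P.roots.toFinset.filter (fun a => P.rootMultiplicity a = 1) ≠ P.roots.toFinset) ∨
      2 * (P.roots.toFinset.filter (fun a => P.rootMultiplicity a = 1)).card ≤
        P.roots.toFinset.card) :
    Isoparametric F U X ξ :=
  Pool.Agent.QnR.main hU h hne hι hk0 hk1 hd P hP hcond

end Pool.Agent.Results.MP_cda892_gt.ProductWithLine
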